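import Pool.Agent.H175G.Stmts2

/-! T15: assembly of the crossing case. -/

namespace Pool.Agent.H175G

open Finset Classical
open Pool.Agent.H175R2 (DT nt on cpt Cn P4Free)

variable {V : Type}

section CrossAsm

variable {G : SimpleGraph V}

lemma crossx_clus (hp : NoP23 G) {v0 v1 v2 v3 : V} (h22 : C22 G v0 v1 v2 v3) {A : Finset V}
    (hA : ∀ x ∈ A, ¬ G.Adj v0 x ∧ ¬ G.Adj v1 x ∧ ¬ G.Adj v2 x ∧ ¬ G.Adj v3 x) : Clus G A := by
  intro x hx y hy z hz hxy hyz hne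
  have h1 := hA x hx
  have h2 := hA y hy
  have h3 := hA z hz
  by_contra hcon
  gp

lemma crossx_edgeP (hp : NoP23 G) {v0 v1 v2 v3 : V} (h22 : C22 G v0 v1 v2 v3) {P A : Finset V}
    (hP : ∀ x ∈ P, G.Adj v0 x ∧ G.Adj v2 x ∧ ¬ G.Adj v3 x)
    (hA : ∀ x ∈ A, ¬ G.Adj v0 x ∧ ¬ G.Adj v1 x ∧ ¬ G.Adj v2 x ∧ ¬ G.Adj v3 x)
    {x a b : V} (hx : x ∈ P) (ha : a ∈ A) (hb : b ∈ A) (hab : G.Adj a b) (h : ¬ G.Adj a x) :
    G.Adj b x := by
  have h1 := hP x hx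
  have h2 := hA a ha
  have h3 := hA b hb
  have h4 : v0 ≠ v2 := by
    rintro rfl
    exact h22.2.2.2.1 h22.2.1
  by_contra hcon
  gp

lemma crossx_edgeQ (hp : NoP23 G) {v0 v1 v2 v3 : V} (h22 : C22 G v0 v1 v2 v3) {Q A : Finset V}
    (hQ : ∀ x ∈ Q, G.Adj v1 x ∧ G.Adj v3 x ∧ ¬ G.Adj v2 x)
    (hA : ∀ x ∈ A, ¬ G.Adj v0 x ∧ ¬ G.Adj v1 x ∧ ¬ G.Adj v2 x ∧ ¬ G.Adj v3 x)
    {x a b : V} (hx : x ∈ Q) (ha : a ∈ A) (hb : b ∈ A) (hab : G.Adj a b) (h : ¬ G.Adj a x) :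
    G.Adj b x := by
  have h1 := hQ x hx
  have h2 := hA a ha
  have h3 := hA b hb
  have h4 : v1 ≠ v3 := by
    rintro rfl
    exact h22.2.2.2.2.1 h22.2.1.symm
  by_contra hcon
  gp

lemma crossx_complete (_hg : NoGem G) (hp : NoP23 G) (hc : NoC5 G) {v0 v1 v2 v3 : V}
    (h22 : C22 G v0 v1 v2 v3) {P Q A : Finset V}
    (hP : ∀ x ∈ P, G.Adj v0 x ∧ G.Adj v2 x ∧ ¬ G.Adj v3 x)
    (hQ : ∀ x ∈ Q, G.Adj v1 x ∧ G.Adj v3 x ∧ ¬ G.Adj v2 x)
    (hA : ∀ x ∈ A, ¬ G.Adj v0 x ∧ ¬ G.Adj v1 x ∧ ¬ G.Adj v2 x ∧ ¬ G.Adj v3 x)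
    {a b p q : V} (ha : a ∈ A) (hb : b ∈ A) (hab : G.Adj a b) (hpP : p ∈ P) (hqQ : q ∈ Q) :
    G.Adj p q := by
  have h1 := hP p hpP
  have h1' := hQ q hqQ
  have h2 := hA a ha
  have h3 := hA b hb
  by_contra hcon
  by_cases h4 : G.Adj a p
  · by_cases h5 : G.Adj a q
    · gp
    · have h6 := crossx_edgeQ hp h22 hQ hA hqQ ha hb hab h5
      by_cases h7 : G.Adj b p
      · gp
      · have h8 : v0 ≠ v2 := by
          rintro rfl
          exact h22.2.2.2.1 h22.2.1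
        gp 2
  · have h6 := crossx_edgeP hp h22 hP hA hpP ha hb hab h4
    by_cases h5 : G.Adj b q
    · gp
    · have h6 := crossx_edgeQ hp h22 hQ hA hqQ hb ha hab.symm h5
      have h8 : v0 ≠ v2 := by
        rintro rfl
        exact h22.2.2.2.1 h22.2.1
      gp 2

/-- the two ends of an edge of `A` are not both missed by `P` -/
lemma crossx_missP (hg : NoGem G) (hp : NoP23 G) (hc : NoC5 G) {v0 v1 v2 v3 : V}
    (h22 : C22 G v0 v1 v2 v3) {P Q A : Finset V}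
    (hP : ∀ x ∈ P, G.Adj v0 x ∧ G.Adj v2 x ∧ ¬ G.Adj v3 x)
    (hQ : ∀ x ∈ Q, G.Adj v1 x ∧ G.Adj v3 x ∧ ¬ G.Adj v2 x)
    (hA : ∀ x ∈ A, ¬ G.Adj v0 x ∧ ¬ G.Adj v1 x ∧ ¬ G.Adj v2 x ∧ ¬ G.Adj v3 x)
    (hQne : Q.Nonempty)
    {a b x y : V} (ha : a ∈ A) (hb : b ∈ A) (hab : G.Adj a b) (hx : x ∈ P) (hy : y ∈ P)
    (hax : ¬ G.Adj a x) (hby : ¬ G.Adj b y) : False := by
  obtain ⟨q, hq⟩ := hQne
  have k1 := crossx_complete hg hp hc h22 hP hQ hA ha hb hab hx hq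
  have k2 := crossx_complete hg hp hc h22 hP hQ hA ha hb hab hy hq
  have h1 := hP x hx
  have h1' := hP y hy
  have h1'' := hQ q hq
  have h2 := hA a ha
  have h3 := hA b hb
  have h4 := crossx_edgeP hp h22 hP hA hx ha hb hab hax
  have h5 := crossx_edgeP hp h22 hP hA hy hb ha hab.symm hby
  by_cases h6 : G.Adj x y
  · by_cases h7 : G.Adj b q
    · gp
    · have h8 := crossx_edgeQ hp h22 hQ hA hq hb ha hab.symm h7
      gp
  · gp

/-- the two ends of an edge of `A` are not both missed by `Q` -/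
lemma crossx_missQ (hg : NoGem G) (hp : NoP23 G) (hc : NoC5 G) {v0 v1 v2 v3 : V}
    (h22 : C22 G v0 v1 v2 v3) {P Q A : Finset V}
    (hP : ∀ x ∈ P, G.Adj v0 x ∧ G.Adj v2 x ∧ ¬ G.Adj v3 x)
    (hQ : ∀ x ∈ Q, G.Adj v1 x ∧ G.Adj v3 x ∧ ¬ G.Adj v2 x)
    (hA : ∀ x ∈ A, ¬ G.Adj v0 x ∧ ¬ G.Adj v1 x ∧ ¬ G.Adj v2 x ∧ ¬ G.Adj v3 x)
    (hPne : P.Nonempty)
    {a b x y : V} (ha : a ∈ A) (hb : b ∈ A) (hab : G.Adj a b) (hx : x ∈ Q) (hy : y ∈ Q)
    (hax : ¬ G.Adj a x) (hby : ¬ G.Adj b y) : False := by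
  obtain ⟨q, hq⟩ := hPne
  have k1 := crossx_complete hg hp hc h22 hP hQ hA ha hb hab hq hx
  have k2 := crossx_complete hg hp hc h22 hP hQ hA ha hb hab hq hy
  have h1 := hQ x hx
  have h1' := hQ y hy
  have h1'' := hP q hq
  have h2 := hA a ha
  have h3 := hA b hb
  have h4 := crossx_edgeQ hp h22 hQ hA hx ha hb hab hax
  have h5 := crossx_edgeQ hp h22 hQ hA hy hb ha hab.symm hby
  by_cases h6 : G.Adj x y
  · by_cases h7 : G.Adj b q
    · gp
    · have h8 := crossx_edgeP hp h22 hP hA hq hb ha hab.symm h7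
      gp
  · gp

end CrossAsm

theorem cross_stmt (_hA : AttachStmt) (hZp : ZpStmt) (hCP : CPStmt) : CrossStmt := by
  obtain ⟨K1, hZp⟩ := hZp
  obtain ⟨K2, hCP⟩ := hCP
  refine ⟨max K1 K2, ?_⟩
  intro V G hg hp hc v0 v1 v2 v3 h22 P Q A hP hQ hA hPe hQe
  have hPne : P.Nonempty := ⟨hPe.choose, hPe.choose_spec.1⟩
  have hQne : Q.Nonempty := ⟨hQe.choose, hQe.choose_spec.1⟩
  have hcl : Clus G A := crossx_clus hp h22 hA
  by_cases hq : ∃ q ∈ A, ∀ x ∈ P ∪ Q, G.Adj q x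
  · obtain ⟨q, hqA, hqall⟩ := hq
    refine BD.mono (hZp V G hg hp hc q (P ∪ Q ∪ A) ?_) (le_max_left _ _)
    refine hcl.sub ?_
    intro x hx
    rw [mem_filter, mem_union] at hx
    rcases hx.1 with h | h
    · exact absurd (hqall x h) hx.2
    · exact h
  · push Not at hq
    -- `z` is missed
    set π : V → V := fun z => if h : ∃ y ∈ A, G.Adj z y then h.choose else z with hπ
    have hπ1 : ∀ z ∈ A, π z ∈ A ∧ ((π z = z ∧ ∀ y ∈ A, ¬ G.Adj z y) ∨ G.Adj z (π z)) := by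
      intro z hz
      by_cases h : ∃ y ∈ A, G.Adj z y
      · have e : π z = h.choose := by simp only [hπ]; rw [dif_pos h]
        rw [e]
        exact ⟨h.choose_spec.1, Or.inr h.choose_spec.2⟩
      · have e : π z = z := by simp only [hπ]; rw [dif_neg h]
        rw [e]
        refine ⟨hz, Or.inl ⟨rfl, fun y hy hzy => h ⟨y, hy, hzy⟩⟩⟩
    set Ω : Finset V := A.filter (fun z => (∀ y ∈ A, ¬ G.Adj z y) ∨ ∃ x ∈ P, ¬ G.Adj z x) with hΩ
    have hΩA : ∀ z ∈ Ω, z ∈ A := fun z hz => (mem_filter.1 hz).1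
    have hmP : ∀ a ∈ A, ∀ b ∈ A, G.Adj a b → (∃ x ∈ P, ¬ G.Adj a x) → (∃ x ∈ P, ¬ G.Adj b x) →
        False := by
      rintro a ha b hb hab ⟨x, hx, hax⟩ ⟨y, hy, hby⟩
      exact crossx_missP hg hp hc h22 hP hQ hA hQne ha hb hab hx hy hax hby
    have hmQ : ∀ a ∈ A, ∀ b ∈ A, G.Adj a b → (∃ x ∈ Q, ¬ G.Adj a x) → (∃ x ∈ Q, ¬ G.Adj b x) →
        False := by
      rintro a ha b hb hab ⟨x, hx, hax⟩ ⟨y, hy, hby⟩
      exact crossx_missQ hg hp hc h22 hP hQ hA hPne ha hb hab hx hy hax hby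
    have hmiss : ∀ a ∈ A, (∃ x ∈ P, ¬ G.Adj a x) ∨ (∃ x ∈ Q, ¬ G.Adj a x) := by
      intro a ha
      obtain ⟨x, hx, hax⟩ := hq a ha
      rw [mem_union] at hx
      rcases hx with h | h
      · exact Or.inl ⟨x, h, hax⟩
      · exact Or.inr ⟨x, h, hax⟩
    -- distinct vertices of `Ω` are not adjacent
    have d1 : ∀ x ∈ Ω, ∀ y ∈ Ω, ¬ G.Adj x y := by
      intro x hx y hy hxy
      have hx' := (mem_filter.1 hx)
      have hy' := (mem_filter.1 hy)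
      rcases hx'.2 with h | h
      · exact h y hy'.1 hxy
      · rcases hy'.2 with h' | h'
        · exact h' x hx'.1 hxy.symm
        · exact hmP x hx'.1 y hy'.1 hxy h h'
    have d2 : ∀ x ∈ Ω, ∀ y ∈ Ω, x ≠ y → ¬ G.Adj x (π y) := by
      intro x hx y hy hne hxy
      obtain ⟨k1, k2⟩ := hπ1 y (hΩA y hy)
      rcases k2 with ⟨e, k3⟩ | k3
      · rw [e] at hxy
        exact d1 x hx y hy hxy
      · exact d1 x hx y hy (hcl x (hΩA x hx) (π y) k1 y (hΩA y hy) hxy k3.symm hne)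
    have d3 : ∀ x ∈ Ω, ∀ y ∈ Ω, x ≠ y → x ≠ π y := by
      intro x hx y hy hne he
      obtain ⟨k1, k2⟩ := hπ1 y (hΩA y hy)
      rcases k2 with ⟨e, k3⟩ | k3
      · rw [e] at he
        exact hne he
      · rw [← he] at k3
        exact d1 y hy x hx k3
    have d4 : ∀ x ∈ Ω, ∀ y ∈ Ω, x ≠ y → π x ≠ π y := by
      intro x hx y hy hne he
      obtain ⟨k1, k2⟩ := hπ1 x (hΩA x hx)
      rcases k2 with ⟨e, k3⟩ | k3
      · rw [e] at he
        exact d3 x hx y hy hne he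
      · rw [he] at k3
        exact d2 x hx y hy hne k3
    have d5 : ∀ x ∈ Ω, ∀ y ∈ Ω, x ≠ y → ¬ G.Adj (π x) (π y) := by
      intro x hx y hy hne hxy
      obtain ⟨k1, k2⟩ := hπ1 x (hΩA x hx)
      obtain ⟨k1', k2'⟩ := hπ1 y (hΩA y hy)
      rcases k2 with ⟨e, k3⟩ | k3
      · rw [e] at hxy
        exact d2 x hx y hy hne hxy
      · exact d2 x hx y hy hne (hcl x (hΩA x hx) (π x) k1 (π y) k1' k3 hxy (d3 x hx y hy hne))
    have hcfg : CPCfg G v0 v1 v2 v3 P Q Ω π := by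
      refine ⟨h22, hP, hQ, fun x hx => hA x (hΩA x hx), fun x hx => hA _ (hπ1 x (hΩA x hx)).1,
        fun x hx y hy hne => ⟨d1 x hx y hy, d5 x hx y hy hne, d2 x hx y hy hne, d3 x hx y hy hne,
          d4 x hx y hy hne⟩, ?_⟩
      intro x hx
      obtain ⟨k1, k2⟩ := hπ1 x (hΩA x hx)
      rcases k2 with ⟨e, k3⟩ | k3
      · exact Or.inl e
      · right
        have hx' := (mem_filter.1 hx)
        have hmx : ∃ z ∈ P, ¬ G.Adj x z := by
          rcases hx'.2 with h | h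
          · exact absurd k3 (h _ k1)
          · exact h
        refine ⟨k3, ?_, ?_⟩
        · intro p hpP
          by_contra hcon
          exact hmP x hx'.1 (π x) k1 k3 hmx ⟨p, hpP, hcon⟩
        · intro q hqQ
          by_contra hcon
          rcases hmiss (π x) k1 with h | h
          · exact hmP x hx'.1 (π x) k1 k3 hmx h
          · exact hmQ x hx'.1 (π x) k1 k3 ⟨q, hqQ, hcon⟩ h
    refine BD.mono ((hCP V G hg hp hc v0 v1 v2 v3 P Q Ω π hcfg hPne hQne).sub ?_)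
      (le_max_right _ _)
    intro z hz
    rw [mem_union] at hz
    rcases hz with hz | hz
    · rw [mem_union, mem_union]
      exact Or.inl (Or.inl hz)
    · obtain ⟨k1, k2⟩ := hπ1 z hz
      rcases k2 with ⟨e, k3⟩ | k3
      · rw [mem_union, mem_union]
        exact Or.inl (Or.inr (mem_filter.2 ⟨hz, Or.inl k3⟩))
      · by_cases hmz : ∃ x ∈ P, ¬ G.Adj z x
        · rw [mem_union, mem_union]
          exact Or.inl (Or.inr (mem_filter.2 ⟨hz, Or.inr hmz⟩))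
        · have hmzQ : ∃ x ∈ Q, ¬ G.Adj z x := (hmiss z hz).resolve_left hmz
          -- `z' = π z`
          have hz'P : ∃ x ∈ P, ¬ G.Adj (π z) x := by
            rcases hmiss (π z) k1 with h | h
            · exact h
            · exact absurd (hmQ z hz (π z) k1 k3 hmzQ h) id
          have hz'Ω : π z ∈ Ω := mem_filter.2 ⟨k1, Or.inr hz'P⟩
          have e : π (π z) = z := by
            by_contra hne
            obtain ⟨k4, k5⟩ := hπ1 (π z) k1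
            rcases k5 with ⟨_, k6⟩ | k6
            · exact k6 z hz k3.symm
            · have k7 : G.Adj z (π (π z)) :=
                hcl z hz (π z) k1 (π (π z)) k4 k3 k6 (fun h => hne h.symm)
              have k8 : ∃ x ∈ Q, ¬ G.Adj (π (π z)) x := by
                rcases hmiss (π (π z)) k4 with h | h
                · exact absurd (hmP (π z) k1 (π (π z)) k4 k6 hz'P h) id
                · exact h
              exact hmQ z hz (π (π z)) k4 k7 hmzQ k8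
          rw [mem_union]
          right
          exact mem_image.2 ⟨π z, hz'Ω, e⟩

end Pool.Agent.H175G
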